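import Pool.Agent.X238.Orth.Tests

/-!
# MP_136091_gt : iterated orthogonals of the map from the empty space to the point in Top

Only finitely many classes of continuous maps arise from the map from the empty space to the one
point space by iterating left and right orthogonals: there are at most 22 of them.
-/

namespace Pool.Agent.Results.MP_136091_gt.FinitelyManyOrthogonals

open CategoryTheory Pool.Agent.X238.Orth

universe u

/-- The two letters. -/
inductive Letter
  | l
  | r

/-- `C ^ s` for a word `s`: the orthogonals are taken letter by letter, `llp` is the left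
orthogonal (maps with the left lifting property against the class) and `rlp` the right one. -/
def orth (C : MorphismProperty TopCat.{u}) : List Letter → MorphismProperty TopCat.{u}
  | [] => C
  | Letter.l :: w => orth C.llp w
  | Letter.r :: w => orth C.rlp w

/-- The unique continuous map from the empty space to the one point space. -/
def emptyToPoint : TopCat.of PEmpty.{u + 1} ⟶ TopCat.of PUnit.{u + 1} :=
  TopCat.ofHom ⟨fun x => x.elim, continuous_of_discreteTopology⟩

/-- The class with the single member `emptyToPoint`. -/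
def start : MorphismProperty TopCat.{u} :=
  MorphismProperty.ofHoms (fun _ : Unit => emptyToPoint.{u})

/-- The 22 classes. -/
def fam : List (MorphismProperty TopCat.{u}) :=
  [C0, cL, cS, c2, SE, Sg, cM, cQ, Is, cT, De, cE, cJ, T1, C18, C11, cK, cG, CE, DM, Isos, ⊤]

theorem closed (P : MorphismProperty TopCat.{u}) (h : P ∈ fam.{u}) :
    P.llp ∈ fam.{u} ∧ P.rlp ∈ fam.{u} := by
  have m0 : C0.{u} ∈ fam.{u} := by simp [fam]
  have mL : cL.{u} ∈ fam.{u} := by simp [fam]
  have mS : cS.{u} ∈ fam.{u} := by simp [fam]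
  have m2 : c2.{u} ∈ fam.{u} := by simp [fam]
  have mSE : SE.{u} ∈ fam.{u} := by simp [fam]
  have mSg : Sg.{u} ∈ fam.{u} := by simp [fam]
  have mM : cM.{u} ∈ fam.{u} := by simp [fam]
  have mQ : cQ.{u} ∈ fam.{u} := by simp [fam]
  have mIs : Is.{u} ∈ fam.{u} := by simp [fam]
  have mT : cT.{u} ∈ fam.{u} := by simp [fam]
  have mDe : De.{u} ∈ fam.{u} := by simp [fam]
  have mE : cE.{u} ∈ fam.{u} := by simp [fam]
  have mJ : cJ.{u} ∈ fam.{u} := by simp [fam]
  have mT1 : T1.{u} ∈ fam.{u} := by simp [fam]
  have m18 : C18.{u} ∈ fam.{u} := by simp [fam]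
  have m11 : C11.{u} ∈ fam.{u} := by simp [fam]
  have mK : cK.{u} ∈ fam.{u} := by simp [fam]
  have mG : cG.{u} ∈ fam.{u} := by simp [fam]
  have mCE : CE.{u} ∈ fam.{u} := by simp [fam]
  have mDM : DM.{u} ∈ fam.{u} := by simp [fam]
  have mI : Isos.{u} ∈ fam.{u} := by simp [fam]
  have mA : (⊤ : MorphismProperty TopCat.{u}) ∈ fam.{u} := by simp [fam]
  have key : ∀ P Q R : MorphismProperty TopCat.{u}, P.llp = Q → P.rlp = R → Q ∈ fam.{u} →
      R ∈ fam.{u} → P.llp ∈ fam.{u} ∧ P.rlp ∈ fam.{u} := by
    rintro P Q R rfl rfl h1 h2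
    exact ⟨h1, h2⟩
  unfold fam at h
  rw [List.mem_cons, List.mem_cons, List.mem_cons, List.mem_cons, List.mem_cons,
    List.mem_cons, List.mem_cons, List.mem_cons, List.mem_cons, List.mem_cons,
    List.mem_cons, List.mem_cons, List.mem_cons, List.mem_cons, List.mem_cons,
    List.mem_cons, List.mem_cons, List.mem_cons, List.mem_cons, List.mem_cons,
    List.mem_cons, List.mem_cons] at h
  rcases h with h | h | h | h | h | h | h | h | h | h | h | h | h | h | h | h | h | h | h | h |
    h | h | h
  · rw [h]; exact key _ cL cS rfl rfl mL mS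
  · rw [h]; exact key _ Isos c2 L_llp rfl mI m2
  · rw [h]; exact key _ De cE rfl rfl mDe mE
  · rw [h]; exact key _ cL SE (gal_l C0) rfl mL mSE
  · rw [h]; exact key _ Sg cM rfl rfl mSg mM
  · rw [h]; exact key _ C11 SE Sg_llp (gal_r c2) m11 mSE
  · rw [h]; exact key _ cQ Is rfl rfl mQ mIs
  · rw [h]; exact key _ De cM Q_llp (gal_r SE) mDe mM
  · rw [h]; exact key _ cM cT Is_llp rfl mM mT
  · rw [h]; exact key _ Is Isos T_llp T_rlp mIs mI
  · rw [h]; exact key _ C11 cS rfl (gal_r C0) m11 mS
  · rw [h]; exact key _ cS cJ E_llp rfl mS mJ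
  · rw [h]; exact key _ cE T1 J_llp rfl mE mT1
  · rw [h]; exact key _ C18 Isos rfl T1_rlp m18 mI
  · rw [h]; exact key _ De T1 C18_llp (gal_r cJ) mDe mT1
  · rw [h]; exact key _ Isos cK C11_llp rfl mI mK
  · rw [h]; exact key _ C11 cG (gal_l De) rfl m11 mG
  · rw [h]; exact key _ CE T1 rfl G_rlp mCE mT1
  · rw [h]; exact key _ DM cG rfl (gal_r cK) mDM mG
  · rw [h]; exact key _ Isos CE DM_llp DM_rlp mI mCE
  · rw [h]; exact key _ ⊤ ⊤ isos_llp isos_rlp mA mA
  · rw [h]; exact key _ Isos Isos top_llp top_rlp mI mI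
  · exact absurd h List.not_mem_nil

theorem orth_mem (w : List Letter) : ∀ P : MorphismProperty TopCat.{u}, P ∈ fam.{u} →
    orth P w ∈ fam.{u} := by
  induction w with
  | nil => exact fun P h => h
  | cons a w ih =>
    intro P h
    cases a
    · exact ih _ (closed P h).1
    · exact ih _ (closed P h).2

/-- The family of the classes `C_0 ^ s` is finite and has at most 22 members. -/
theorem result :
    {P : MorphismProperty TopCat.{u} | ∃ w : List Letter, P = orth start.{u} w}.Finite ∧
      {P : MorphismProperty TopCat.{u} | ∃ w : List Letter, P = orth start.{u} w}.ncard ≤ 22 := by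
  classical
  have hsub : {P : MorphismProperty TopCat.{u} | ∃ w : List Letter, P = orth start.{u} w} ⊆
      (fam.{u}.toFinset : Set (MorphismProperty TopCat.{u})) := by
    rintro P ⟨w, rfl⟩
    rw [Finset.mem_coe, List.mem_toFinset]
    exact orth_mem w C0 (by simp [fam])
  refine ⟨(Finset.finite_toSet _).subset hsub, ?_⟩
  refine (Set.ncard_le_ncard hsub (Finset.finite_toSet _)).trans ?_
  rw [Set.ncard_coe_finset]
  exact List.toFinset_card_le _

end Pool.Agent.Results.MP_136091_gt.FinitelyManyOrthogonals
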